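import Pool.Agent.R7.Main

set_option autoImplicit false

/-!
# MP_97f6b1_co: 7-connected graphs with few or far apart bad vertices of degree seven
-/

namespace Pool.Agent.Results.MP_97f6b1_co.SparseBadVertices

open SimpleGraph Pool.Agent.TreewidthMinor Pool.Agent.K6

/-- `G` has a minor which is complete on six vertices: six disjoint nonempty connected vertex sets,
each pair joined by an edge (the conclusion of the frozen statement). -/
def HasK6Minor {V : Type} (G : SimpleGraph V) : Prop :=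
  ∃ B : Fin 6 → Finset V,
    (∀ i, (B i).Nonempty) ∧
    (∀ i j, i ≠ j → Disjoint (B i) (B j)) ∧
    (∀ i, (G.induce (B i : Set V)).Connected) ∧
    (∀ i j, i ≠ j → ∃ u ∈ B i, ∃ v ∈ B j, G.Adj u v)

/-- `G` is 7-connected: at least eight vertices, and connected after deleting any fewer than seven
vertices (the hypothesis of the frozen statement). -/
def Is7Connected {V : Type} [Fintype V] (G : SimpleGraph V) : Prop :=
  8 ≤ Fintype.card V ∧ ∀ S : Finset V, S.card < 7 → (G.induce ((S : Set V)ᶜ)).Connected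

/-- The common neighbours of `u` and `v` (for adjacent `u`, `v`: the triangles on the edge). -/
def common {V : Type} (G : SimpleGraph V) (u v : V) : Set V := {w | G.Adj u w ∧ G.Adj v w}

/-- The least number of triangles on an edge at `v`. -/
noncomputable def tri {V : Type} (G : SimpleGraph V) (v : V) : ℕ :=
  sInf {m | ∃ w, G.Adj v w ∧ (common G v w).ncard = m}

/-- `v` is the centre of an induced claw. -/
def ClawCentre {V : Type} (G : SimpleGraph V) (v : V) : Prop :=
  ∃ x y z, x ≠ y ∧ x ≠ z ∧ y ≠ z ∧ G.Adj v x ∧ G.Adj v y ∧ G.Adj v z ∧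
    ¬ G.Adj x y ∧ ¬ G.Adj x z ∧ ¬ G.Adj y z

/-- `v` is bad: it has degree seven, and some vertex `h` (possibly `v` itself) of degree at most
eight with `N[v] ⊆ N[h]` is the centre of an induced claw and an end of an edge which lies in at
most two triangles. -/
def Bad {V : Type} (G : SimpleGraph V) (v : V) : Prop :=
  (G.neighborSet v).ncard = 7 ∧ ∃ h, (∀ x, x = v ∨ G.Adj v x → x = h ∨ G.Adj h x) ∧
    (G.neighborSet h).ncard ≤ 8 ∧ ClawCentre G h ∧ tri G h ≤ 2

/-- `u` and `v` have distance at least three: they are different, not adjacent, and have no common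
neighbour. -/
def Far {V : Type} (G : SimpleGraph V) (u v : V) : Prop :=
  u ≠ v ∧ ¬ G.Adj u v ∧ ∀ x, ¬ (G.Adj u x ∧ G.Adj v x)

theorem of_isMinor {V : Type} [Fintype V] {G : SimpleGraph V}
    (h : IsMinor (⊤ : SimpleGraph (Fin 6)) G) : HasK6Minor G := by
  classical
  obtain ⟨B, h1, h2, h3⟩ := h
  refine ⟨fun i => (B i).toFinset, ?_, ?_, ?_, ?_⟩
  · intro i
    obtain ⟨x, hx⟩ := (sc_of_connected (h1 i)).1
    exact ⟨x, Set.mem_toFinset.2 hx⟩
  · intro i j hij
    rw [Set.disjoint_toFinset]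
    exact h2 i j hij
  · intro i
    rw [Set.coe_toFinset]
    exact h1 i
  · intro i j hij
    obtain ⟨x, hx, y, hy, hxy⟩ := h3 i j hij
    exact ⟨x, Set.mem_toFinset.2 hx, y, Set.mem_toFinset.2 hy, hxy⟩

theorem con7 {V : Type} [Fintype V] {G : SimpleGraph V} (h : Is7Connected G) :
    Pool.Agent.R7.Con7 G := by
  classical
  intro S hS
  have h1 := h.2 S.toFinset (by rw [← Set.ncard_eq_toFinset_card']; exact hS)
  rw [Set.coe_toFinset] at h1
  exact sc_of_connected h1

/-- 7-connected graphs have minimum degree at least seven. -/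
theorem degree_of_connected {V : Type} [Fintype V] {G : SimpleGraph V} (h : Is7Connected G)
    (v : V) : 7 ≤ (nb G v).ncard := by
  classical
  by_contra hlt
  push Not at hlt
  have hc : (insert v (nb G v)).ncard < (Set.univ : Set V).ncard := by
    rw [Set.ncard_univ, Nat.card_eq_fintype_card]
    have h1 := Set.ncard_insert_le v (nb G v)
    have h2 := h.1
    omega
  obtain ⟨w, hw⟩ : ∃ w, w ∉ insert v (nb G v) := by
    by_contra hall
    push Not at hall
    have : insert v (nb G v) = Set.univ := Set.eq_univ_of_forall hall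
    rw [this] at hc
    exact lt_irrefl _ hc
  refine Pool.Agent.R7.sep (con7 h) (X := {v}) (S := nb G v) (x := v) (y := w) rfl ?_ hlt ?_ ?_ ?_
  · rw [Set.disjoint_singleton_left]
    exact fun hh => G.irrefl hh
  · exact fun hh => hw (Or.inl hh)
  · exact fun hh => hw (Or.inr hh)
  · intro a ha b hab
    rw [Set.mem_singleton_iff] at ha
    rw [ha] at hab
    exact Or.inr hab

theorem tri_le {V : Type} {G : SimpleGraph V} {v w : V} (h : G.Adj v w) :
    tri G v ≤ (common G v w).ncard := Nat.sInf_le ⟨w, h, rfl⟩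

theorem exists_tri {V : Type} [Fintype V] {G : SimpleGraph V} (h : Is7Connected G) (v : V) :
    ∃ w, G.Adj v w ∧ (common G v w).ncard = tri G v := by
  have h1 : (nb G v).Nonempty := by
    rw [← Set.ncard_pos (Set.toFinite _)]
    have := degree_of_connected h v
    omega
  obtain ⟨w, hw⟩ := h1
  exact Nat.sInf_mem (s := {m | ∃ w, G.Adj v w ∧ (common G v w).ncard = m}) ⟨_, w, hw, rfl⟩

theorem poor_iff {V : Type} [Fintype V] {G : SimpleGraph V} (h : Is7Connected G) (v : V) :
    Pool.Agent.R7.Poor G v ↔ tri G v ≤ 2 := by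
  constructor
  · rintro ⟨w, hw, hw'⟩
    exact (tri_le hw).trans hw'
  · intro h2
    obtain ⟨w, hw, hw'⟩ := exists_tri h v
    exact ⟨w, hw, hw'.le.trans h2⟩

/-- Ends of edges in at most two triangles are centres of claws. -/
theorem claw {V : Type} [Fintype V] {G : SimpleGraph V} (h : Is7Connected G)
    (hK : ¬ HasK6Minor G) {v : V} (hv : Pool.Agent.R7.Poor G v) : ClawCentre G v := by
  classical
  obtain ⟨w, hw, hw'⟩ := hv
  obtain ⟨A, hA⟩ : ∃ A : Set V, A = nb G v \ insert w (cn G v w) := ⟨_, rfl⟩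
  have hA4 : 4 ≤ A.ncard := by
    have h1 := degree_of_connected h v
    have h2 := Set.ncard_insert_le w (cn G v w)
    have h3 := Set.ncard_le_ncard_sdiff_add_ncard (nb G v) (insert w (cn G v w)) (Set.toFinite _)
    rw [← hA] at h3
    omega
  obtain ⟨T, hTA, hT⟩ := Set.exists_subset_card_eq hA4
  have hTm : ∀ x ∈ T, G.Adj v x ∧ x ≠ w ∧ ¬ G.Adj w x := by
    intro x hx
    have h1 := hTA hx
    rw [hA] at h1
    refine ⟨h1.1, fun hh => h1.2 (Or.inl hh), fun hh => h1.2 (Or.inr ⟨h1.1, hh⟩)⟩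
  by_contra hcon
  refine Pool.Agent.R7.no_five (con7 h) (degree_of_connected h) (fun hh => hK (of_isMinor hh))
    (insert v T) ?_ ?_
  · rw [Set.ncard_insert_of_notMem (fun hh => G.irrefl (hTm v hh).1) (Set.toFinite _), hT]
  · intro x hx y hy hxy
    rcases hx with rfl | hx <;> rcases hy with rfl | hy
    · exact absurd rfl hxy
    · exact (hTm y hy).1
    · exact (hTm x hx).1.symm
    · by_contra hadj
      obtain ⟨h1, h2, h3⟩ := hTm x hx
      obtain ⟨h4, h5, h6⟩ := hTm y hy
      exact hcon ⟨w, x, y, h2.symm, h5.symm, hxy, hw, h1, h4, h3, h6, hadj⟩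

theorem bad_iff {V : Type} [Fintype V] {G : SimpleGraph V} (h : Is7Connected G)
    (hK : ¬ HasK6Minor G) (v : V) : Pool.Agent.R7.Bad G v ↔ Bad G v := by
  constructor
  · rintro ⟨h1, u, h2, h3, h4⟩
    exact ⟨h1, u, h2, h3, claw h hK h4, (poor_iff h u).1 h4⟩
  · rintro ⟨h1, u, h2, h3, -, h4⟩
    exact ⟨h1, u, h2, h3, (poor_iff h u).2 h4⟩

/-- **Theorem.** Let `G` be a 7-connected graph without a complete minor on six vertices, and let
`S` be a set of vertices pairwise at distance at least three, each of which is bad or an end of an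
edge in at most two triangles. Then there are at least `20 + ∑_{v ∈ S} max(1, 6 - 2 tri(v))` bad
vertices. -/
theorem result :
    ∀ (V : Type) [Fintype V] (G : SimpleGraph V), Is7Connected G → ¬ HasK6Minor G →
      ∀ S : Finset V, (∀ v ∈ S, Bad G v ∨ tri G v ≤ 2) →
        (∀ u ∈ S, ∀ v ∈ S, u ≠ v → Far G u v) →
        20 + ∑ v ∈ S, max 1 (6 - 2 * tri G v) ≤ {v | Bad G v}.ncard := by
  classical
  intro V _ G h hK S hS hfar
  obtain ⟨S1, hS1⟩ : ∃ S1, S1 = S.filter fun v => tri G v ≤ 2 := ⟨_, rfl⟩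
  obtain ⟨S2, hS2⟩ : ∃ S2, S2 = S.filter fun v => ¬ tri G v ≤ 2 := ⟨_, rfl⟩
  have m1 : ∀ v, v ∈ S1 ↔ v ∈ S ∧ tri G v ≤ 2 := by intro v; rw [hS1, Finset.mem_filter]
  have m2 : ∀ v, v ∈ S2 ↔ v ∈ S ∧ ¬ tri G v ≤ 2 := by intro v; rw [hS2, Finset.mem_filter]
  have m3 : ∀ v, (v ∈ S1 ∨ v ∈ S2) → v ∈ S := by
    rintro v (hv | hv)
    · exact ((m1 v).1 hv).1
    · exact ((m2 v).1 hv).1
  have hm := Pool.Agent.R7.main (con7 h) (degree_of_connected h) (fun hh => hK (of_isMinor hh))
    (by rw [Nat.card_eq_fintype_card]; exact h.1) S1 S2 (tri G) (by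
      intro v hv
      have h2 := ((m1 v).1 hv).2
      obtain ⟨w, hw, hw'⟩ := exists_tri h v
      exact ⟨by omega, w, hw, hw'.le⟩) (by
      intro v hv
      obtain ⟨h1, h2⟩ := (m2 v).1 hv
      exact ⟨(bad_iff h hK v).2 ((hS v h1).resolve_right h2), fun hh => h2 ((poor_iff h v).1 hh)⟩)
    (by
      rw [Finset.disjoint_left]
      intro v hv hv'
      exact ((m2 v).1 hv').2 ((m1 v).1 hv).2) (by
      intro u v hu hv huv x hx hx'
      obtain ⟨-, h1, h2⟩ := hfar u (m3 u hu) v (m3 v hv) huv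
      rcases hx with rfl | hx <;> rcases hx' with rfl | hx'
      · exact huv rfl
      · exact h1 hx'.symm
      · exact h1 hx
      · exact h2 x ⟨hx, hx'⟩)
  have e1 : {v | Pool.Agent.R7.Bad G v} = {v | Bad G v} := by
    ext v
    exact bad_iff h hK v
  rw [e1] at hm
  have e2 : ∑ v ∈ S, max 1 (6 - 2 * tri G v) = ∑ v ∈ S1, (6 - 2 * tri G v) + S2.card := by
    rw [← Finset.sum_filter_add_sum_filter_not S (fun v => tri G v ≤ 2), ← hS1, ← hS2]
    congr 1
    · refine Finset.sum_congr rfl fun v hv => ?_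
      have := ((m1 v).1 hv).2
      omega
    · rw [Finset.card_eq_sum_ones]
      refine Finset.sum_congr rfl fun v hv => ?_
      have := ((m2 v).1 hv).2
      omega
  omega

end Pool.Agent.Results.MP_97f6b1_co.SparseBadVertices
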