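import Pool.Agent.K6.Global

set_option autoImplicit false

/-!
# MP_97f6b1_co: triangle-free graphs of minimum degree seven have a complete minor on six vertices
-/

namespace Pool.Agent.Results.MP_97f6b1_co.TriangleFree

open SimpleGraph Pool.Agent.TreewidthMinor Pool.Agent.K6

/-- `G` has a minor which is complete on six vertices: six disjoint nonempty connected vertex sets,
each pair joined by an edge (the conclusion of the frozen statement). -/
def HasK6Minor {V : Type} (G : SimpleGraph V) : Prop :=
  ∃ B : Fin 6 → Finset V,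
    (∀ i, (B i).Nonempty) ∧
    (∀ i j, i ≠ j → Disjoint (B i) (B j)) ∧
    (∀ i, (G.induce (B i : Set V)).Connected) ∧
    (∀ i j, i ≠ j → ∃ u ∈ B i, ∃ v ∈ B j, G.Adj u v)

/-- `G` is 7-connected: at least eight vertices, and connected after deleting any fewer than seven
vertices (the hypothesis of the frozen statement). -/
def Is7Connected {V : Type} [Fintype V] (G : SimpleGraph V) : Prop :=
  8 ≤ Fintype.card V ∧ ∀ S : Finset V, S.card < 7 → (G.induce ((S : Set V)ᶜ)).Connected

theorem of_isMinor {V : Type} [Fintype V] {G : SimpleGraph V}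
    (h : IsMinor (⊤ : SimpleGraph (Fin 6)) G) : HasK6Minor G := by
  classical
  obtain ⟨B, h1, h2, h3⟩ := h
  refine ⟨fun i => (B i).toFinset, ?_, ?_, ?_, ?_⟩
  · intro i
    obtain ⟨x, hx⟩ := (sc_of_connected (h1 i)).1
    exact ⟨x, Set.mem_toFinset.2 hx⟩
  · intro i j hij
    rw [Set.disjoint_toFinset]
    exact h2 i j hij
  · intro i
    rw [Set.coe_toFinset]
    exact h1 i
  · intro i j hij
    obtain ⟨x, hx, y, hy, hxy⟩ := h3 i j hij
    exact ⟨x, Set.mem_toFinset.2 hx, y, Set.mem_toFinset.2 hy, hxy⟩

/-- 7-connected graphs have minimum degree at least seven. -/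
theorem degree_of_connected {V : Type} [Fintype V] {G : SimpleGraph V} (h : Is7Connected G)
    (v : V) : 7 ≤ (G.neighborSet v).ncard := by
  classical
  by_contra hlt
  push Not at hlt
  obtain ⟨S, hS⟩ : ∃ S : Finset V, S = (G.neighborSet v).toFinset := ⟨_, rfl⟩
  have hS' : ∀ x, x ∈ S ↔ G.Adj v x := by
    intro x
    rw [hS, Set.mem_toFinset]
    exact Iff.rfl
  have hcS : S.card < 7 := by
    rw [hS, ← Set.ncard_eq_toFinset_card']
    exact hlt
  have hv : v ∈ ((S : Set V)ᶜ) := fun hv => G.irrefl ((hS' v).1 hv)
  have hc : (insert v S).card < Fintype.card V := by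
    have h1 := Finset.card_insert_le v S
    have h2 := h.1
    omega
  obtain ⟨w, hw⟩ : ∃ w, w ∉ insert v S := by
    by_contra hall
    push Not at hall
    have : (insert v S) = Finset.univ := Finset.eq_univ_of_forall hall
    rw [this, Finset.card_univ] at hc
    exact lt_irrefl _ hc
  rw [Finset.mem_insert, not_or] at hw
  have hw' : w ∈ ((S : Set V)ᶜ) := hw.2
  have hsc := sc_of_connected (h.2 S hcS)
  obtain ⟨p, hp⟩ := hsc.2 v hv w hw'
  cases p with
  | nil => exact hw.1 rfl
  | cons hadj q =>
    rename_i x
    have hx : x ∈ ((S : Set V)ᶜ) := hp x (by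
      rw [Walk.support_cons]
      exact List.mem_cons_of_mem _ q.start_mem_support)
    exact hx ((hS' x).2 hadj)

/-- Every finite triangle-free graph which is 7-connected, or nonempty with all vertices of degree
at least seven, has a minor which is complete on six vertices. -/
theorem result :
    ∀ (V : Type) [Fintype V] (G : SimpleGraph V), G.CliqueFree 3 →
      (Is7Connected G ∨ (Nonempty V ∧ ∀ v, 7 ≤ (G.neighborSet v).ncard)) → HasK6Minor G := by
  have key : ∀ (V : Type) [Fintype V] [Nonempty V] (G : SimpleGraph V), G.CliqueFree 3 →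
      (∀ v, 7 ≤ (G.neighborSet v).ncard) → HasK6Minor G := by
    intro V _ _ G htf h7
    refine of_isMinor (main_minor G ?_ h7)
    intro x y z hxy hyz hxz
    classical
    exact htf {x, y, z} (is3Clique_triple_iff.2 ⟨hxy, hxz, hyz⟩)
  intro V _ G htf h
  rcases h with h7 | ⟨hne, h7⟩
  · have hne : Nonempty V := by
      rw [← Fintype.card_pos_iff]
      have := h7.1
      omega
    exact key V G htf (degree_of_connected h7)
  · exact key V G htf h7

end Pool.Agent.Results.MP_97f6b1_co.TriangleFree
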